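import Pool.Agent.Y116.UV.Defs
import Pool.Agent.W5h68.SP.CycDefs

/-!
# The schemes built from schemes of small dimension: definitions
-/

set_option autoImplicit false

open CategoryTheory AlgebraicGeometry TensorProduct Pool.Agent.Y116.UV Pool.Agent.W5h68.SP

namespace Pool.Agent.W5h68.ET

/-- `A` is a tensor product over `k` of finitely many algebras of finite type of Krull dimension at most
`n`; so `Spec A` is a product of affine schemes of dimension at most `n`. -/
inductive IsProd (k : Type) [Field k] (n : ℕ) : (A : Type) → [CommRing A] → [Algebra k A] → Prop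
  | base : IsProd k n k
  | mul {A B : Type} [CommRing A] [Algebra k A] [Algebra.FiniteType k A] [CommRing B] [Algebra k B]
      (hA : ringKrullDim A ≤ n) (hB : IsProd k n B) : IsProd k n (A ⊗[k] B)

/-- The smallest class of algebras of finite type over `k` (affine schemes) which contains those of
dimension at most `n` and is closed under

* isomorphisms, products, products with the affine line,
* closed-open decompositions: if two of the three schemes `X`, `{f = 0}`, `{f ≠ 0}` are in the class,
  `f` a function on `X`, then so is the third,
* descent along the finite flat coverings `s ^ d = u`, `u` a unit. -/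
inductive Aff (k : Type) [Field k] (n : ℕ) : (A : Type) → [CommRing A] → [Algebra k A] → Prop
  | dim {A : Type} [CommRing A] [Algebra k A] [Algebra.FiniteType k A] (h : ringKrullDim A ≤ n) :
      Aff k n A
  | iso {A B : Type} [CommRing A] [Algebra k A] [CommRing B] [Algebra k B] [Algebra.FiniteType k A]
      (e : A ≃ₐ[k] B) (hA : Aff k n A) : Aff k n B
  | total {A : Type} [CommRing A] [Algebra k A] [Algebra.FiniteType k A] (f : A)
      (h1 : Aff k n (A ⧸ Ideal.span {f})) (h2 : Aff k n (Localization.Away f)) : Aff k n A
  | opened {A : Type} [CommRing A] [Algebra k A] [Algebra.FiniteType k A] (f : A)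
      (h1 : Aff k n (A ⧸ Ideal.span {f})) (h2 : Aff k n A) : Aff k n (Localization.Away f)
  | closed {A : Type} [CommRing A] [Algebra k A] [Algebra.FiniteType k A] (f : A)
      (h1 : Aff k n A) (h2 : Aff k n (Localization.Away f)) : Aff k n (A ⧸ Ideal.span {f})
  | poly {A : Type} [CommRing A] [Algebra k A] [Algebra.FiniteType k A] (h : Aff k n A) :
      Aff k n (Polynomial A)
  | prod {A B : Type} [CommRing A] [Algebra k A] [Algebra.FiniteType k A] [CommRing B] [Algebra k B]
      [Algebra.FiniteType k B] (hA : Aff k n A) (hB : Aff k n B) : Aff k n (A ⊗[k] B)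
  | cyc {A : Type} [CommRing A] [Algebra k A] [Algebra.FiniteType k A] (d : ℕ) (u : A) (hd : 0 < d)
      (hu : IsUnit u) (h : Aff k n (Cyc A d u)) : Aff k n A

/-- The smallest class of separated schemes of finite type over `k` which contains the affine schemes
of the class `Aff k n` and is closed under isomorphisms and closed-open decompositions (two out of three).
-/
inductive Built (k : Type) [Field k] (n : ℕ) : Sch k → Prop
  | aff {A : Type} [CommRing A] [Algebra k A] [Algebra.FiniteType k A] (h : Aff k n A) :
      Built k n (aff k A)
  | iso {X Y : Sch k} (hX : FT True X) (e : X ≅ Y) (h : Built k n X) : Built k n Y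
  | total {Z X U : Sch k} (i : Z ⟶ X) (j : U ⟶ X) (hX : FT True X) (ht : IsTriple i j)
      (hZ : Built k n Z) (hU : Built k n U) : Built k n X
  | opened {Z X U : Sch k} (i : Z ⟶ X) (j : U ⟶ X) (hX : FT True X) (ht : IsTriple i j)
      (hZ : Built k n Z) (h : Built k n X) : Built k n U
  | closed {Z X U : Sch k} (i : Z ⟶ X) (j : U ⟶ X) (hX : FT True X) (ht : IsTriple i j)
      (h : Built k n X) (hU : Built k n U) : Built k n Z

end Pool.Agent.W5h68.ET
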