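import Pool.Agent.W5h68.SP.Ten
import Pool.Agent.W5h68.ET.ClassDefs

/-!
# Properties of affine schemes closed under closed-open decompositions, lines and coverings
-/

set_option autoImplicit false

open TensorProduct Pool.Agent.W5h68.SP

namespace Pool.Agent.W5h68.ET

/-- closure properties without products -/
structure ClB (k : Type) [Field k] (Q : (A : Type) → [CommRing A] → [Algebra k A] → Prop) :
    Prop where
  iso : ∀ {A B : Type} [CommRing A] [Algebra k A] [CommRing B] [Algebra k B]
    [Algebra.FiniteType k A], (A ≃ₐ[k] B) → Q A → Q B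
  total : ∀ {A : Type} [CommRing A] [Algebra k A] [Algebra.FiniteType k A] (f : A),
    Q (A ⧸ Ideal.span {f}) → Q (Localization.Away f) → Q A
  opened : ∀ {A : Type} [CommRing A] [Algebra k A] [Algebra.FiniteType k A] (f : A),
    Q (A ⧸ Ideal.span {f}) → Q A → Q (Localization.Away f)
  closed : ∀ {A : Type} [CommRing A] [Algebra k A] [Algebra.FiniteType k A] (f : A),
    Q A → Q (Localization.Away f) → Q (A ⧸ Ideal.span {f})
  poly : ∀ {A : Type} [CommRing A] [Algebra k A] [Algebra.FiniteType k A], Q A → Q (Polynomial A)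
  cyc : ∀ {A : Type} [CommRing A] [Algebra k A] [Algebra.FiniteType k A] (d : ℕ) (u : A), 0 < d →
    IsUnit u → Q (Cyc A d u) → Q A

variable {k : Type} [Field k] {Q : (A : Type) → [CommRing A] → [Algebra k A] → Prop} {n : ℕ}

lemma ft_away {A : Type} [CommRing A] [Algebra k A] [Algebra.FiniteType k A] (f : A) :
    Algebra.FiniteType k (Localization.Away f) :=
  Algebra.FiniteType.trans (S := A) inferInstance inferInstance

lemma ft_poly {A : Type} [CommRing A] [Algebra k A] [Algebra.FiniteType k A] :
    Algebra.FiniteType k (Polynomial A) :=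
  Algebra.FiniteType.trans (S := A) inferInstance inferInstance

lemma ft_cyc {A : Type} [CommRing A] [Algebra k A] [Algebra.FiniteType k A] (d : ℕ) (u : A) :
    Algebra.FiniteType k (Cyc A d u) := by
  have : Algebra.FiniteType k (Polynomial A) := ft_poly
  infer_instance

lemma ft_zero {A : Type} [CommRing A] [Algebra k A] (h : Subsingleton A) :
    Algebra.FiniteType k A :=
  Algebra.FiniteType.of_surjective (Algebra.ofId k A) (fun x => ⟨0, Subsingleton.elim _ _⟩)

lemma clb_ten (hQ : ClB k Q) (B : Type) [CommRing B] [Algebra k B] [Algebra.FiniteType k B] :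
    ClB k fun A => Q (A ⊗[k] B) where
  iso e h := hQ.iso (Algebra.TensorProduct.congr e AlgEquiv.refl) h
  total {A} _ _ _ f h1 h2 := by
    have := ft_away (k := k) f
    obtain ⟨e1⟩ := ten_quot (k := k) (B := B) f
    obtain ⟨e2⟩ := ten_away (k := k) (B := B) f
    exact hQ.total (inl' k B f) (hQ.iso e1 h1) (hQ.iso e2 h2)
  opened {A} _ _ _ f h1 h2 := by
    have := ft_away (k := k) (inl' k B f)
    obtain ⟨e1⟩ := ten_quot (k := k) (B := B) f
    obtain ⟨e2⟩ := ten_away (k := k) (B := B) f
    exact hQ.iso e2.symm (hQ.opened (inl' k B f) (hQ.iso e1 h1) h2)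
  closed {A} _ _ _ f h1 h2 := by
    have := ft_away (k := k) f
    obtain ⟨e1⟩ := ten_quot (k := k) (B := B) f
    obtain ⟨e2⟩ := ten_away (k := k) (B := B) f
    exact hQ.iso e1.symm (hQ.closed (inl' k B f) h1 (hQ.iso e2 h2))
  poly {A} _ _ _ h := by
    have := ft_poly (k := k) (A := A ⊗[k] B)
    obtain ⟨e⟩ := ten_poly (k := k) (A := A) (B := B)
    exact hQ.iso e.symm (hQ.poly h)
  cyc {A} _ _ _ d u hd hu h := by
    have := ft_cyc (k := k) d u
    obtain ⟨e⟩ := ten_cyc (k := k) (B := B) d u
    exact hQ.cyc d (inl' k B u) hd (hu.map (inl' k B)) (hQ.iso e h)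

/-- stability under products with products of schemes of dimension at most `n` -/
def Q1 (n : ℕ) (Q : (A : Type) → [CommRing A] → [Algebra k A] → Prop) (B : Type) [CommRing B]
    [Algebra k B] : Prop :=
  ∀ (W : Type) [CommRing W] [Algebra k W], IsProd k n W → Q (B ⊗[k] W)

/-- The product with `Spec A` preserves the property `Q1`. -/
def X0 (n : ℕ) (Q : (A : Type) → [CommRing A] → [Algebra k A] → Prop) (A : Type) [CommRing A]
    [Algebra k A] : Prop :=
  ∀ (B : Type) [CommRing B] [Algebra k B], Algebra.FiniteType k B → Q1 n Q B → Q1 n Q (A ⊗[k] B)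

lemma isProd_ft {A : Type} [CommRing A] [Algebra k A] (h : IsProd k n A) :
    Algebra.FiniteType k A := by
  induction h with
  | base => infer_instance
  | mul hA hB ih =>
    have := ih
    infer_instance

lemma x0_clb (hQ : ClB k Q) : ClB k (X0 n Q) where
  iso e h B _ _ hB h1 W _ _ hW := by
    have := isProd_ft hW
    have := hB
    exact (clb_ten (clb_ten hQ W) B).iso e (h B hB h1 W hW)
  total f h h' B _ _ hB h1 W _ _ hW := by
    have := isProd_ft hW
    have := hB
    exact (clb_ten (clb_ten hQ W) B).total f (h B hB h1 W hW) (h' B hB h1 W hW)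
  opened f h h' B _ _ hB h1 W _ _ hW := by
    have := isProd_ft hW
    have := hB
    exact (clb_ten (clb_ten hQ W) B).opened f (h B hB h1 W hW) (h' B hB h1 W hW)
  closed f h h' B _ _ hB h1 W _ _ hW := by
    have := isProd_ft hW
    have := hB
    exact (clb_ten (clb_ten hQ W) B).closed f (h B hB h1 W hW) (h' B hB h1 W hW)
  poly h B _ _ hB h1 W _ _ hW := by
    have := isProd_ft hW
    have := hB
    exact (clb_ten (clb_ten hQ W) B).poly (h B hB h1 W hW)
  cyc d u hd hu h B _ _ hB h1 W _ _ hW := by
    have := isProd_ft hW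
    have := hB
    exact (clb_ten (clb_ten hQ W) B).cyc d u hd hu (h B hB h1 W hW)

lemma x0_dim (hQ : ClB k Q) {A : Type} [CommRing A] [Algebra k A] [Algebra.FiniteType k A]
    (hA : ringKrullDim A ≤ n) : X0 n Q A := by
  intro B _ _ hB h1 W _ _ hW
  have := isProd_ft hW
  have h2 := h1 (A ⊗[k] W) (IsProd.mul hA hW)
  refine hQ.iso ?_ h2
  exact (Algebra.TensorProduct.assoc k k k B A W).symm.trans
    (Algebra.TensorProduct.congr (Algebra.TensorProduct.comm k B A) AlgEquiv.refl)

lemma x0_prod (hQ : ClB k Q) {A A' : Type} [CommRing A] [Algebra k A] [Algebra.FiniteType k A]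
    [CommRing A'] [Algebra k A'] [Algebra.FiniteType k A'] (hA : X0 n Q A) (hA' : X0 n Q A') :
    X0 n Q (A ⊗[k] A') := by
  intro B _ _ hB h1 W _ _ hW
  have := isProd_ft hW
  have h2 := hA (A' ⊗[k] B) inferInstance (hA' B hB h1) W hW
  refine hQ.iso ?_ h2
  exact Algebra.TensorProduct.congr (Algebra.TensorProduct.assoc k k k A A' B).symm AlgEquiv.refl

lemma x0_self (hQ : ClB k Q) (hP : ∀ (W : Type) [CommRing W] [Algebra k W], IsProd k n W → Q W)
    {A : Type} [CommRing A] [Algebra k A] [Algebra.FiniteType k A] (hA : X0 n Q A) : Q A := by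
  have h1 : Q1 n Q k := by
    intro W _ _ hW
    have := isProd_ft hW
    exact hQ.iso (Algebra.TensorProduct.lid k W).symm (hP W hW)
  have h2 := hA k inferInstance h1 k IsProd.base
  exact hQ.iso ((Algebra.TensorProduct.rid k k (A ⊗[k] k)).trans (Algebra.TensorProduct.rid k k A)) h2

lemma aff_ft {A : Type} [CommRing A] [Algebra k A] (h : Aff k n A) : Algebra.FiniteType k A := by
  induction h with
  | dim h => infer_instance
  | iso e hA ih => exact ih.equiv e
  | total f h1 h2 ih1 ih2 => infer_instance
  | opened f h1 h2 ih1 ih2 => exact ft_away f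
  | closed f h1 h2 ih1 ih2 => infer_instance
  | poly h ih => exact ft_poly
  | prod hA hB ih1 ih2 => infer_instance
  | cyc d u hd hu h ih => infer_instance

/-- **Reduction to products of schemes of dimension at most `n`.** -/
theorem aff_of_prod (hQ : ClB k Q)
    (hP : ∀ (W : Type) [CommRing W] [Algebra k W], IsProd k n W → Q W)
    {A : Type} [CommRing A] [Algebra k A] (h : Aff k n A) : Q A := by
  have h1 : X0 n Q A := by
    induction h with
    | dim h => exact x0_dim hQ h
    | iso e hA ih => exact (x0_clb hQ).iso e ih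
    | total f h1 h2 ih1 ih2 => exact (x0_clb hQ).total f ih1 ih2
    | opened f h1 h2 ih1 ih2 => exact (x0_clb hQ).opened f ih1 ih2
    | closed f h1 h2 ih1 ih2 => exact (x0_clb hQ).closed f ih1 ih2
    | poly h ih => exact (x0_clb hQ).poly ih
    | prod hA hB ih1 ih2 => exact x0_prod hQ ih1 ih2
    | cyc d u hd hu h ih => exact (x0_clb hQ).cyc d u hd hu ih
  have := aff_ft h
  exact x0_self hQ hP h1

lemma aff_isProd {A : Type} [CommRing A] [Algebra k A] (h : IsProd k n A) : Aff k n A := by
  induction h with
  | base =>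
    refine Aff.dim ?_
    rw [ringKrullDim_eq_zero_of_field]
    exact_mod_cast Nat.zero_le n
  | mul hA hB ih =>
    have := isProd_ft hB
    exact Aff.prod (Aff.dim hA) ih

/-- the class has all closure properties -/
lemma aff_clk : ClK k (Aff k n) where
  iso e h := Aff.iso e h
  total f h1 h2 := Aff.total f h1 h2
  opened f h1 h2 := Aff.opened f h1 h2
  closed f h1 h2 := Aff.closed f h1 h2
  poly h := Aff.poly h
  zero {A} _ _ h := by
    have := ft_zero (k := k) h
    refine Aff.dim ?_
    rw [ringKrullDim_eq_bot_of_subsingleton]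
    exact bot_le
  base := aff_isProd IsProd.base
  prod hA hB := Aff.prod hA hB
  cyc d u hd hu h := Aff.cyc d u hd hu h

end Pool.Agent.W5h68.ET
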