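import Pool.Agent.Q282.UZ.Fam
import Pool.Agent.Z125.UN.Dim
import Pool.Agent.W5h68.ET.EtDefs
import Pool.Agent.W5h68.ET.Cls
import Pool.Agent.W5h68.SP.Fm2

/-!
# Étale motivic cohomology of schemes over finite fields
-/

set_option autoImplicit false

open CategoryTheory AlgebraicGeometry Pool.Agent.Y116.UV Pool.Agent.Q193.LT Pool.Agent.W5h68.SP
  Pool.Agent.Z125.UN

namespace Pool.Agent.W5h68.ET

variable {k : Type} [Field k] [Finite k] {H : ℤ → ℤ → Sch k → ModuleCat.{0} ℤ}

lemma fg_iso (hH : IsEtaleMotivic k H) {X Y : Sch k} (hX : FT True X) (e : X ≅ Y)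
    (h : AllFG H X) : AllFG H Y := fun n hn i => by
  obtain ⟨e'⟩ := hH.iso n hn hX ⟨e⟩ i
  exact serre_finite.iso e' (h n hn i)

lemma fg_total (hH : IsEtaleMotivic k H) {Z X U : Sch k} (i : Z ⟶ X) (j : U ⟶ X) (hX : FT True X)
    (ht : IsTriple i j) (hZ : AllFG H Z) (hU : AllFG H U) : AllFG H X := fun n hn => by
  obtain ⟨m, hm⟩ := hH.les n hn i j hX ht
  exact LesMaps.mid serre_finite hm (hZ n hn) (hU n hn)

lemma fg_opened (hH : IsEtaleMotivic k H) {Z X U : Sch k} (i : Z ⟶ X) (j : U ⟶ X) (hX : FT True X)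
    (ht : IsTriple i j) (hZ : AllFG H Z) (h : AllFG H X) : AllFG H U := fun n hn => by
  obtain ⟨m, hm⟩ := hH.les n hn i j hX ht
  exact LesMaps.right serre_finite hm (hZ n hn) (h n hn)

lemma fg_closed (hH : IsEtaleMotivic k H) {Z X U : Sch k} (i : Z ⟶ X) (j : U ⟶ X) (hX : FT True X)
    (ht : IsTriple i j) (h : AllFG H X) (hU : AllFG H U) : AllFG H Z := fun n hn => by
  obtain ⟨m, hm⟩ := hH.les n hn i j hX ht
  exact LesMaps.left serre_finite hm (h n hn) (hU n hn)

lemma fg_clb (hH : IsEtaleMotivic k H) : ClB k fun A => AllFG H (aff k A) where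
  iso e h := fg_iso hH (ft_aff True) (affIso e).symm h
  total f h1 h2 := fg_total hH _ _ (ft_aff True) (triple_away f) h1 h2
  opened f h1 h2 := fg_opened hH _ _ (ft_aff True) (triple_away f) h1 h2
  closed f h1 h2 := fg_closed hH _ _ (ft_aff True) (triple_away f) h1 h2
  poly {A} _ _ _ h n hn i := by
    obtain ⟨e⟩ := hH.line n hn i A
    exact serre_finite.iso e.symm (h (n - 1) (by omega) (i + 2))
  cyc {A} _ _ _ d u hd hu h n hn i := by
    obtain ⟨s, r, hsr⟩ := hH.covering n hn i A d u hd hu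
    refine Pool.Agent.Q282.UZ.finite_of_transfer s r (d : ℤ) (fun x => (hsr x).trans ?_)
      (hH.torsion n hn _ (ft_aff True) i d hd) (h n hn i)
    exact (int_smul_eq_zsmul (H n i (aff k A)).isModule _ _).symm

/-- **Finite generation for the class of schemes built from products of schemes of dimension at most
`n`.** -/
theorem built_fg (hH : IsEtaleMotivic k H) {N : ℕ}
    (hP : ∀ (W : Type) [CommRing W] [Algebra k W], IsProd k N W → AllFG H (aff k W))
    {X : Sch k} (h : Built k N X) : AllFG H X := by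
  induction h with
  | aff h => exact aff_of_prod (fg_clb hH) hP h
  | iso hX e h ih => exact fg_iso hH hX e ih
  | total i j hX ht hZ hU ih1 ih2 => exact fg_total hH i j hX ht ih1 ih2
  | opened i j hX ht hZ h ih1 ih2 => exact fg_opened hH i j hX ht ih1 ih2
  | closed i j hX ht h hU ih1 ih2 => exact fg_closed hH i j hX ht ih1 ih2

omit [Finite k] in
/-- **Read-once systems belong to the class.** -/
theorem readOnce_built (N : ℕ) : ReadOnceSystems k N (Built k N) := by
  intro r σ f hf S hS
  have h1 : ∀ (A : Type) [CommRing A] [Algebra k A] [Algebra.FiniteType k A],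
      ringKrullDim A ≤ N → Aff k N A := fun A _ _ _ hA => Aff.dim hA
  have h2 := readOnce_systems (aff_clk (k := k) (n := N)) h1 σ f hf S hS
  have h3 := aff_ft h2
  exact Built.aff h2

end Pool.Agent.W5h68.ET
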